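import Pool.Agent.U390.DY.Fam
import Pool.Agent.Y939.NC.Orbit

/-! Effective classes above a multi-scale vector. -/

namespace Pool.Agent.U390.DY

open MvPolynomial Pool.Agent.W609 Pool.Agent.W609.CR Pool.Agent.TH167 Pool.Agent.TH167.SH
  Pool.Agent.H932R3 Pool.Agent.TH442.NF

/-- the expected dimension at generic points -/
theorem multi_gen {h : ℕ} {v : Fin h → ℕ} (hv : Multi (Finset.univ.val.map v)) {K : Type} [Field K]
    [CharZero K] {P : Fin h → Fin 2 → K}
    (hP : AlgebraicIndependent ℚ (fun ij : Fin h × Fin 2 => P ij.1 ij.2)) (d : ℕ) :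
    ExpDim K v P d := by
  obtain ⟨F, hF, hF'⟩ := multi_exp hv
  exact hF' P (fun h0 => hF (hP.eq_zero_of_aeval_eq_zero F h0)) d

/-- Effective classes above a multi-scale vector. -/
theorem multi_bound {K : Type} [Field K] [CharZero K] {n : ℕ}
    {P : Fin n → Fin 2 → K}
    (hP : AlgebraicIndependent ℚ (fun ij : Fin n × Fin 2 => P ij.1 ij.2))
    {v : Fin n → ℕ} (hv : Multi (Finset.univ.val.map v)) {d : ℕ} {w : Fin n → ℕ}
    (hle : ∀ j, v j ≤ w j)
    (hpos : 0 < Module.finrank K ↥(VS (fun j => aff (P j)) w d)) :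
    ∑ j, v j ^ 2 + ∑ j, v j ≤ d ^ 2 + 3 * d := by
  have h2 : Module.finrank K ↥(Pool.Agent.H248R5.forms v P d) =
      (d + 2).choose 2 - ∑ j, (v j + 1).choose 2 := multi_gen hv hP d
  have hle1 : Pool.Agent.H248R5.forms w P d ≤ Pool.Agent.H248R5.forms v P d := by
    intro G hG
    unfold Pool.Agent.H248R5.forms at hG ⊢
    rw [Submodule.mem_inf, Submodule.restrictScalars_mem, Ideal.mem_iInf] at hG ⊢
    exact ⟨hG.1, fun j => Ideal.pow_le_pow_right (hle j) (hG.2 j)⟩
  have hfin := Pool.Agent.Y536.SH.forms_fin v P d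
  have h3 := Submodule.finrank_mono hle1
  have h4 : VS (fun j => aff (P j)) w d = Pool.Agent.H248R5.forms w P d := vs_eq_forms P w d
  rw [h4] at hpos
  have h5 : ∑ j, (v j + 1).choose 2 < (d + 2).choose 2 := by omega
  have e2 := Pool.Agent.Y939.NC.two_deg d
  have e1 := Pool.Agent.Y939.NC.two_cond v
  nlinarith

end Pool.Agent.U390.DY
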