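import Pool.Agent.U390.NT.Base
import Pool.Agent.TH2.NU.Multi

/-! Exact clusters, doubling and simple points preserve the expected dimension in every degree. -/

namespace Pool.Agent.U390.DY

open Finset Pool.Agent.TH176.Nag Pool.Agent.TH603.Sur Pool.Agent.H932R3
open Pool.Agent.TH641.UM Pool.Agent.TH2.NU Pool.Agent.U605.ST

/-- the expected dimension in every degree, for a multiset of multiplicities -/
def ED (M : Multiset ℕ) : Prop := ∀ d : ℕ,
  ((d + 2).choose 2 ≤ Pool.Agent.TH2.NU.condM M → EmpM M (TZ d)) ∧ (Pool.Agent.TH2.NU.condM M ≤ (d + 2).choose 2 → SurM M (TZ d))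

theorem TZ_le {d d' : ℕ} (h : d ≤ d') : TZ d ⊆ TZ d' := by
  rintro ⟨a, b⟩ ⟨h1, h2, h3⟩
  exact ⟨h1, h2, h3.trans (by exact_mod_cast h)⟩

/-- an exact cluster -/
theorem ED.four {M : Multiset ℕ} {b : ℕ} (hb : 1 ≤ b) (h : ED ({b} + M)) : ED (r4 b + M) := by
  intro d
  have e : Pool.Agent.TH2.NU.condM (r4 b + M) = Pool.Agent.TH2.NU.condM ({b} + M) := by
    rw [condM_add, condM_add, condM_r4 hb, condM_single]
  rw [e]
  refine ⟨fun h1 => ?_, fun h1 => ?_⟩
  · have h2 := (h d).1 h1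
    rw [← one_smul ℕ ({b} : Multiset ℕ), ← Pool.Agent.TH387.SH.coe_TF] at h2
    have h3 := exM hb h2
    rwa [one_smul, Pool.Agent.TH387.SH.coe_TF] at h3
  · have h2 := (h d).2 h1
    rw [← one_smul ℕ ({b} : Multiset ℕ)] at h2
    have h3 := exMS hb h2
    rwa [one_smul] at h3

/-- doubling -/
theorem ED.double {M : Multiset ℕ} {a b : ℕ} (ha : 1 ≤ a) (hb : 1 ≤ b)
    (h1 : ED (a • {b} + M)) (h2 : ED (a • {b + 1} + M))
    (hc : 2 * Pool.Agent.TH2.NU.condM (a • q4 b + M) ≤ (a * ((b + 1) / 2)) ^ 2) : ED (a • q4 b + M) := by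
  obtain ⟨c, hcc⟩ : ∃ c, c = Pool.Agent.TH2.NU.condM (a • q4 b + M) := ⟨_, rfl⟩
  have c1 : Pool.Agent.TH2.NU.condM (a • {b} + M) + a * ((b + 1) / 2) = c := by
    rw [hcc, condM_add, condM_add, condM_smul, condM_smul, condM_single, condM_q4]
    ring
  have c2 : Pool.Agent.TH2.NU.condM (a • {b + 1} + M) = c + a * (b / 2 + 1) := by
    rw [hcc, condM_add, condM_add, condM_smul, condM_smul, condM_single, condM_q4]
    have e1 : (b + 1 + 1).choose 2 = (b + 1).choose 2 + (b + 1) := by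
      rw [Nat.choose_succ_succ' (b + 1) 1, Nat.choose_one_right]
      ring
    have e2 : b + 1 = (b + 1) / 2 + (b / 2 + 1) := by omega
    have e3 : a * (b + 1) = a * ((b + 1) / 2) + a * (b / 2 + 1) := by
      rw [← Nat.mul_add, ← e2]
    rw [e1, Nat.mul_add, Nat.mul_add a _ ((b + 1) / 2)]
    omega
  rw [← hcc] at hc
  obtain ⟨A, hA⟩ : ∃ A, A = a * ((b + 1) / 2) := ⟨_, rfl⟩
  have hA' : A ≤ a * (b / 2 + 1) := by
    rw [hA]
    exact Nat.mul_le_mul_left a (by omega)
  have hA1 : 1 ≤ A := by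
    rw [hA]
    exact Nat.succ_le_of_lt (Nat.mul_pos (by omega) (by omega))
  rw [← hA] at hc c1
  have hch : ∀ D : ℕ, 2 * (D + 2).choose 2 = (D + 1) * (D + 2) := by
    intro D
    have := Nat.triangle_succ (D + 1)
    rw [Nat.choose_two_right]
    have h3 : (D + 2) * (D + 2 - 1) / 2 * 2 = (D + 2) * (D + 2 - 1) := by
      apply Nat.div_mul_cancel
      have : D + 2 - 1 = D + 1 := by omega
      rw [this]
      exact (Nat.even_mul_succ_self (D + 1)).two_dvd.trans (by rw [mul_comm])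
    have h4 : D + 2 - 1 = D + 1 := by omega
    rw [h4] at h3 ⊢
    rw [mul_comm 2, h3]
    ring
  have hpos : ∀ D : ℕ, ∀ u ∈ Pool.Agent.TH387.SH.TF D, 0 ≤ u.1 ∧ 0 ≤ u.2 := by
    intro D u hu
    have h3 : u ∈ TZ D := by rw [← Pool.Agent.TH387.SH.coe_TF]; exact mem_coe.2 hu
    exact ⟨h3.1, h3.2.1⟩
  -- the decision in one degree
  have key : ∀ D : ℕ, c ≤ (D + 2).choose 2 + A → (D + 2).choose 2 ≤ c + a * (b / 2 + 1) →
      ((D + 2).choose 2 ≤ c → EmpM (a • q4 b + M) (TZ D)) ∧
      (c ≤ (D + 2).choose 2 → SurM (a • q4 b + M) (TZ D)) := by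
    intro D k1 k2
    have g1 := (h1 D).2 (by omega)
    have g2 := (h2 D).1 (by omega)
    rw [← Pool.Agent.TH387.SH.coe_TF] at g1 g2
    have g3 := dblM (by omega) (hpos D) g1 g2
    rw [Pool.Agent.TH387.SH.card_TF, Pool.Agent.TH387.SH.coe_TF, ← hcc] at g3
    exact g3
  have hsucc : ∀ D : ℕ, (D + 1 + 2).choose 2 = (D + 2).choose 2 + (D + 2) := by
    intro D
    rw [Nat.choose_succ_succ' (D + 2) 1, Nat.choose_one_right]
    ring
  intro t
  rw [← hcc]
  constructor
  · intro ht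
    -- the largest degree
    have hbd : ∀ D : ℕ, (D + 2).choose 2 ≤ c → D ≤ c := by
      intro D hD
      have := hch D
      nlinarith
    obtain ⟨D, hD⟩ : ∃ D, D = Nat.findGreatest (fun D => (D + 2).choose 2 ≤ c) c := ⟨_, rfl⟩
    have hD1 : (D + 2).choose 2 ≤ c := by
      rw [hD]
      exact Nat.findGreatest_spec (P := fun D => (D + 2).choose 2 ≤ c) (hbd t ht) ht
    have htD : t ≤ D := by
      rw [hD]
      exact Nat.le_findGreatest (hbd t ht) ht
    have hD2 : c < (D + 1 + 2).choose 2 := by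
      by_contra hcon
      rw [not_lt] at hcon
      have := Nat.le_findGreatest (P := fun D => (D + 2).choose 2 ≤ c) (hbd _ hcon) hcon
      omega
    have hD3 : D + 1 < A := by
      have e := hch D
      by_contra hcon
      rw [not_lt] at hcon
      nlinarith
    rw [hsucc] at hD2
    exact Pool.Agent.TH176.Nag.Emp.mono ((key D (by omega) (by omega)).1 hD1) (TZ_le htD)
  · intro ht
    -- the smallest degree
    have hex : ∃ D, c ≤ (D + 2).choose 2 := ⟨t, ht⟩
    obtain ⟨D, hD⟩ : ∃ D, D = Nat.find hex := ⟨_, rfl⟩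
    have hD1 : c ≤ (D + 2).choose 2 := by rw [hD]; exact Nat.find_spec hex
    have htD : D ≤ t := by rw [hD]; exact Nat.find_min' hex ht
    have hD2 : (D + 2).choose 2 ≤ c + a * (b / 2 + 1) := by
      rcases Nat.eq_zero_or_pos D with h0 | h0
      · rw [h0]
        have : (0 + 2).choose 2 = 1 := by decide
        omega
      · obtain ⟨D', rfl⟩ : ∃ D', D = D' + 1 := ⟨D - 1, by omega⟩
        have h3 : (D' + 2).choose 2 < c := by
          by_contra hcon
          rw [not_lt] at hcon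
          have := Nat.find_min' hex hcon
          omega
        rw [hsucc]
        have e := hch D'
        have h4 : D' + 1 < A := by
          by_contra hcon
          rw [not_lt] at hcon
          nlinarith
        omega
    exact Pool.Agent.TH603.Sur.Sur.mono ((key D (by omega) hD2).2 hD1) (TZ_le htD)

theorem ED.zero {M : Multiset ℕ} (h : ED M) : ED ({0} + M) := by
  have e : ms (Sum.elim (fun _ : Fin 1 => 0) fun i : Fin M.toList.length => M.toList.get i) =
      {0} + M := by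
    rw [ms_sum, ms_fin, ms_toList, one_smul]
  intro d
  have hc : Pool.Agent.TH2.NU.condM ({0} + M) = Pool.Agent.TH2.NU.condM M := by
    rw [condM_add, condM_single]
    simp
  rw [hc, EmpM_iff e, SurM_iff e]
  refine ⟨fun h1 => ?_, fun h1 => ?_⟩
  · exact Emp_emb Sum.inr Sum.inr_injective (fun i => le_refl _) ((h d).1 h1)
  · refine Sur_emb Sum.inr Sum.inr_injective (fun _ => rfl) ?_ ((h d).2 h1)
    rintro (i | i) h2
    · rfl
    · exact absurd ⟨i, rfl⟩ h2

theorem ED.one {M : Multiset ℕ} (h : ED M) : ED (M + {1}) := by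
  have e : ms (Sum.elim (fun i : Fin M.toList.length => M.toList.get i) fun _ : Fin 1 => 1) =
      M + {1} := by
    rw [ms_sum, ms_fin, ms_toList, one_smul]
  have hcM : Pool.Agent.TH603.Sur.cond (fun i : Fin M.toList.length => M.toList.get i) = Pool.Agent.TH2.NU.condM M := by
    rw [cond_condM, ms_toList]
  intro d
  have hc : Pool.Agent.TH2.NU.condM (M + {1}) = Pool.Agent.TH2.NU.condM M + 1 := by
    rw [condM_add, condM_single]
    rfl
  rw [hc, EmpM_iff e, SurM_iff e]
  refine ⟨fun h1 => ?_, fun h1 => ?_⟩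
  · rcases Nat.lt_or_ge (Pool.Agent.TH2.NU.condM M) ((d + 2).choose 2) with h2 | h2
    · exact Emp_ones ((h d).2 h2.le) (by rw [hcM]; exact h1)
    · exact Emp_emb Sum.inl Sum.inl_injective (fun i => le_refl _) ((h d).1 h2)
  · have h2 := (h d).2 (by omega)
    unfold SurM at h2
    rw [← Pool.Agent.TH387.SH.coe_TF] at h2 ⊢
    exact Sur_ones h2 (by rw [Pool.Agent.TH387.SH.card_TF, hcM]; exact h1)

/-- from the calculus to the expected dimension -/
theorem ED.exp {h : ℕ} {v : Fin h → ℕ} (hv : ED (ms v)) :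
    ∃ F : MvPolynomial (Fin h × Fin 2) ℚ, F ≠ 0 ∧ ∀ {L : Type} [Field L] [CharZero L]
      (P : Fin h → Fin 2 → L), MvPolynomial.aeval (fun ij : Fin h × Fin 2 => P ij.1 ij.2) F ≠ 0 →
      ∀ d, ExpDim L v P d := by
  refine expDim_of_sign (fun d hd => ?_) (fun d hd => ?_)
  · rw [cond_condM] at hd
    exact (EmpM_ms v _).1 ((hv d).1 hd)
  · rw [cond_condM] at hd
    exact (SurM_ms v _).1 ((hv d).2 hd)

end Pool.Agent.U390.DY
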