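import Pool.Agent.U390.DY.Calc

/-! Multi-scale lists: start lists, exact splitting, doubling, small numbers. -/

namespace Pool.Agent.U390.DY

open Finset Pool.Agent.TH176.Nag Pool.Agent.TH603.Sur Pool.Agent.TH603.Cut Pool.Agent.H932R3
open Pool.Agent.TH760.EN Pool.Agent.TH641.UM Pool.Agent.TH2.NU Pool.Agent.U605.ST
open Pool.Agent.U390.NT

/-- emptiness decides a degree -/
theorem both_of_Emp {ι : Type} [Fintype ι] {w : ι → ℕ} {d : ℕ} (h : Emp w (TZ d)) :
    ((d + 2).choose 2 ≤ Pool.Agent.TH603.Sur.cond w → Emp w (TZ d)) ∧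
      (Pool.Agent.TH603.Sur.cond w ≤ (d + 2).choose 2 → Sur w (TZ d)) :=
  ⟨fun _ => h, fun h1 => Sur_of_ones (p := 0)
    (Emp_emb Sum.inl Sum.inl_injective (fun i => le_refl _) h) (by omega)⟩

/-- independence decides a degree -/
theorem both_of_Sur {ι : Type} [Fintype ι] {w : ι → ℕ} {d : ℕ} (h : Sur w (TZ d)) :
    ((d + 2).choose 2 ≤ Pool.Agent.TH603.Sur.cond w → Emp w (TZ d)) ∧
      (Pool.Agent.TH603.Sur.cond w ≤ (d + 2).choose 2 → Sur w (TZ d)) := by
  refine ⟨fun h1 => ?_, fun _ => h⟩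
  have h2 := Emp_ones (p := 0) h (by omega)
  refine Emp_emb (fun i : ι ⊕ Fin 0 => i.elim id (fun j => j.elim0)) ?_ ?_ h2
  · rintro (i | i) (j | j) hij
    · exact congrArg _ hij
    · exact j.elim0
    · exact i.elim0
    · exact i.elim0
  · rintro (i | i)
    · exact le_refl _
    · exact i.elim0

/-- equal multiplicities `m ≥ n` at `n ≥ 37` points -/
theorem ES_equal {n m : ℕ} (hn : 37 ≤ n) (hm : n ≤ m) (d : ℕ) :
    ((d + 2).choose 2 ≤ Pool.Agent.TH603.Sur.cond (fun _ : Fin n => m) →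
      Emp (fun _ : Fin n => m) (TZ d)) ∧
      (Pool.Agent.TH603.Sur.cond (fun _ : Fin n => m) ≤ (d + 2).choose 2 →
        Sur (fun _ : Fin n => m) (TZ d)) := by
  have hnR : (37 : ℝ) ≤ n := by exact_mod_cast hn
  have hmR : (n : ℝ) ≤ m := by exact_mod_cast hm
  have hn0 : (0 : ℝ) ≤ n := by linarith
  have hss : √(n : ℝ) * √(n : ℝ) = n := Real.mul_self_sqrt hn0
  have hs6 : 6 ≤ √(n : ℝ) := Real.le_sqrt_of_sq_le (by linarith)
  have hcc : Pool.Agent.TH603.Sur.cond (fun _ : Fin n => m) = n * (m + 1).choose 2 :=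
    cond_const (Fintype.card_fin n) fun _ => rfl
  rcases lt_or_ge |2 * (d : ℝ) + 3 - √(n : ℝ) * (2 * m + 1)| (4 / 3) with h | h
  · rw [hcc]
    exact crit37 hn d h
  obtain ⟨s, hs⟩ : ∃ s, s = √(n : ℝ) := ⟨_, rfl⟩
  rcases le_abs.1 h with h3 | h3
  · refine both_of_Sur ?_
    refine Pool.Agent.TH641.NW.Sur_win2 (b := m) Pool.Agent.TH641.NW.keyS (by omega)
      (Fintype.card_fin n) (fun _ => Nat.le_succ _) ?_
    have hsum : ((∑ _i : Fin n, max m m : ℕ) : ℝ) = n * m := by simp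
    rw [hsum]
    rw [← hs] at hs6 hss h3 ⊢
    nlinarith
  · refine both_of_Emp ?_
    refine Pool.Agent.TH641.NW.Emp_win_uni2 Pool.Agent.TH641.NW.keyE
      (fun h w' d' h' => Pool.Agent.TH603.EL.Emp_plane h h') (by omega) ?_ ?_
    · rw [← hs] at hs6 hss ⊢
      nlinarith
    · rw [← hs] at hs6 hss h3 ⊢
      nlinarith

theorem ED_equal {n m : ℕ} (hn : 37 ≤ n) (hm : n ≤ m) : ED (n • {m}) := by
  intro d
  have h := ES_equal hn hm d
  rw [cond_condM, ms_fin] at h
  exact ⟨fun h1 => (EmpM_iff (ms_fin n m) _).2 (h.1 h1),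
    fun h1 => (SurM_iff (ms_fin n m) _).2 (h.2 h1)⟩

/-- The start lists: `n` numbers `m` or `m + 1` (or all equal to `m`) and a tail; or at least `37`
numbers `m`. -/
def Start (s : Multiset ℕ) : Prop :=
  (∃ (u t : Multiset ℕ) (m T : ℕ), s = u + t ∧ u.card ≤ 2 * m ∧
    (((∀ x ∈ u, x = m ∨ x = m + 1) ∧
        24 * (T : ℝ) + 16 * √(u.card : ℝ) / 3 + 95 ≤ u.card) ∨
      ((∀ x ∈ u, x = m) ∧ 149 ≤ u.card ∧
        8 * (T : ℝ) + 8 * √(u.card : ℝ) / 3 + 29 ≤ u.card)) ∧
    (∀ x ∈ t, x ≤ T) ∧ (t.map fun x => x ^ 2).sum + T ^ 2 ≤ T * m) ∨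
  ∃ n m : ℕ, 37 ≤ n ∧ n ≤ m ∧ s = Multiset.replicate n m

theorem sum_get (t : Multiset ℕ) (f : ℕ → ℕ) :
    ∑ i : Fin t.toList.length, f (t.toList.get i) = (t.map f).sum := by
  have h1 : (t.map f).sum = (t.toList.map f).sum := by
    conv_lhs => rw [← Multiset.coe_toList t]
    rfl
  rw [h1]
  exact Fin.sum_univ_fun_getElem t.toList f

theorem Start.ed {s : Multiset ℕ} (h : Start s) : ED s := by
  rcases h with ⟨u, t, m, T, rfl, hnm, hw, hT, hQ⟩ | ⟨n, m, hn, hm, rfl⟩
  · have e : ms (Sum.elim (fun i : Fin u.toList.length => u.toList.get i)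
        (fun i : Fin t.toList.length => t.toList.get i)) = u + t := by
      rw [ms_sum, ms_toList, ms_toList]
    have hmem : ∀ i : Fin u.toList.length, u.toList.get i ∈ u := fun i =>
      Multiset.mem_toList.1 (List.get_mem _ _)
    have hmem' : ∀ i : Fin t.toList.length, t.toList.get i ∈ t := fun i =>
      Multiset.mem_toList.1 (List.get_mem _ _)
    have hcard : u.toList.length = u.card := Multiset.length_toList u
    have hT' : ∀ j : Fin t.toList.length, t.toList.get j ≤ T := fun j => hT _ (hmem' j)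
    have hsum := sum_get t fun x => x ^ 2
    rw [← hsum] at hQ
    have hr1 : Sur (fun i : Fin t.toList.length => t.toList.get i) (Rect T (2 * m)) := by
      refine Sur_rect hT' hT' ?_
      have e1 : T * (2 * m) = 2 * (T * m) := by ring
      rw [e1]
      nlinarith
    have hr2 : Sur (fun i : Fin t.toList.length => t.toList.get i) (Rect (2 * T) m) := by
      refine Sur_rect hT' (fun j => (hT' j).trans (by omega)) ?_
      have e1 : 2 * T * m = 2 * (T * m) := by ring
      have e2 : 2 * T * T = 2 * T ^ 2 := by ring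
      rw [e1, e2]
      omega
    intro d
    rcases hw with ⟨h1, h2⟩ | ⟨h1, h2, h3⟩
    · rw [← hcard] at hnm h2
      have h4 := ES_near (n := u.toList.length) (T := T) hnm (fun i => h1 _ (hmem i)) hr1 hr2 h2 d
      rw [cond_condM, e] at h4
      exact ⟨fun h5 => (EmpM_iff e _).2 (h4.1 h5), fun h5 => (SurM_iff e _).2 (h4.2 h5)⟩
    · rw [← hcard] at hnm h2 h3
      have h4 := ES_uni (n := u.toList.length) (T := T) h2 hnm (fun i => h1 _ (hmem i)) hr1 hr2 h3 d
      rw [cond_condM, e] at h4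
      exact ⟨fun h5 => (EmpM_iff e _).2 (h4.1 h5), fun h5 => (SurM_iff e _).2 (h4.2 h5)⟩
  · have := ED_equal hn hm
    rwa [Multiset.nsmul_singleton] at this

/-- **The multi-scale lists.** -/
inductive Multi : Multiset ℕ → Prop
  | start {s : Multiset ℕ} (h : Start s) : Multi s
  | small {s : Multiset ℕ} {x : ℕ} (hx : x ≤ 1) (h : Multi s) : Multi (s + {x})
  | split {s : Multiset ℕ} {b : ℕ} (hb : 1 ≤ b) (h : Multi (s + {b})) :
      Multi (s + ({(2 * b - 1) / 4} + {2 * b / 4} + {(2 * b + 1) / 4} + {(2 * b + 2) / 4}))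
  | double {s : Multiset ℕ} {a b : ℕ} (ha : 1 ≤ a) (hb : 1 ≤ b)
      (h1 : Multi (s + Multiset.replicate a b)) (h2 : Multi (s + Multiset.replicate a (b + 1)))
      (h : ((s + (Multiset.replicate (2 * a) (b / 2) +
        Multiset.replicate (2 * a) ((b + 1) / 2))).map fun x => x * (x + 1)).sum ≤
          (a * ((b + 1) / 2)) ^ 2) :
      Multi (s + (Multiset.replicate (2 * a) (b / 2) + Multiset.replicate (2 * a) ((b + 1) / 2)))

/-- the members of an exact cluster -/
theorem r4_eq {b : ℕ} (hb : 1 ≤ b) : r4 b = {(2 * b - 1) / 4} + {2 * b / 4} + {(2 * b + 1) / 4} +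
    {(2 * b + 2) / 4} := by
  unfold r4 ms
  rw [Fintype.sum_prod_type]
  simp only [Fin.sum_univ_two]
  unfold rv
  simp only [Fin.val_zero, Fin.val_one]
  have e0 : 2 * b - 1 + (2 * 0 + 0) = 2 * b - 1 := by omega
  have e1 : 2 * b - 1 + (2 * 0 + 1) = 2 * b := by omega
  have e2 : 2 * b - 1 + (2 * 1 + 0) = 2 * b + 1 := by omega
  have e3 : 2 * b - 1 + (2 * 1 + 1) = 2 * b + 2 := by omega
  rw [e0, e1, e2, e3]
  abel

/-- the members of a doubling cluster -/
theorem q4_eq (a b : ℕ) : a • q4 b = Multiset.replicate (2 * a) (b / 2) +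
    Multiset.replicate (2 * a) ((b + 1) / 2) := by
  have h : q4 b = 2 • {b / 2} + 2 • {(b + 1) / 2} := by
    unfold q4 ms
    rw [Fintype.sum_prod_type]
    simp only [Fin.sum_univ_two]
    unfold qv
    simp only [Fin.val_zero, Fin.val_one, add_zero]
    rw [two_nsmul, two_nsmul]
  rw [h, nsmul_add, ← mul_nsmul', ← mul_nsmul', Multiset.nsmul_singleton,
    Multiset.nsmul_singleton, mul_comm a 2]

theorem two_condM (s : Multiset ℕ) : 2 * Pool.Agent.TH2.NU.condM s =
    (s.map fun x => x * (x + 1)).sum := by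
  unfold Pool.Agent.TH2.NU.condM
  induction s using Multiset.induction with
  | empty => simp
  | cons a s ih =>
    rw [Multiset.map_cons, Multiset.sum_cons, Multiset.map_cons, Multiset.sum_cons, mul_add, ih]
    congr 1
    rw [Nat.choose_two_right, Nat.add_sub_cancel, Nat.mul_div_cancel' (by
      rw [mul_comm]
      exact (Nat.even_mul_succ_self a).two_dvd), mul_comm]

theorem Multi.ed {s : Multiset ℕ} (h : Multi s) : ED s := by
  induction h with
  | start h => exact h.ed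
  | @small s x hx _ ih =>
    rcases (by omega : x = 0 ∨ x = 1) with rfl | rfl
    · rw [add_comm]
      exact ih.zero
    · exact ih.one
  | @split s b hb _ ih =>
    rw [← r4_eq hb, add_comm]
    rw [add_comm] at ih
    exact ih.four hb
  | @double s a b ha hb _ _ h ih1 ih2 =>
    rw [← q4_eq, add_comm] at h ⊢
    rw [← two_condM] at h
    rw [add_comm, ← Multiset.nsmul_singleton] at ih1 ih2
    exact ED.double ha hb ih1 ih2 h

/-- a vector is a multi-scale vector -/
def MultiVec {h : ℕ} (v : Fin h → ℕ) : Prop := Multi (univ.val.map v)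

theorem ms_val {h : ℕ} (v : Fin h → ℕ) : ms v = univ.val.map v := by
  unfold ms
  rw [← Multiset.sum_map_singleton (univ.val.map v), Multiset.map_map]
  rfl

/-- **The expected dimension in every degree** -/
theorem multi_exp {h : ℕ} {v : Fin h → ℕ} (hv : Multi (univ.val.map v)) :
    ∃ F : MvPolynomial (Fin h × Fin 2) ℚ, F ≠ 0 ∧ ∀ {L : Type} [Field L] [CharZero L]
      (P : Fin h → Fin 2 → L), MvPolynomial.aeval (fun ij : Fin h × Fin 2 => P ij.1 ij.2) F ≠ 0 →
      ∀ d, ExpDim L v P d :=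
  ED.exp (by rw [ms_val]; exact hv.ed)

end Pool.Agent.U390.DY
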